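import Pool.Agent.X277.Ham.NoHom

/-!
# MP_68f289_gt: no homomorphisms from the Hamiltonian homeomorphisms of the ball to slender groups

`HamGroup n` is the group of the frozen statement S13311: the homeomorphisms of `ℝ^{2n}` which are
supported in a compact subset of the open unit ball and are uniform limits of time one maps of smooth
Hamiltonian flows supported in the same compact set (here every `n` is allowed).

A group `Γ` is slender (cm-slender) if every homomorphism from a completely metrizable topological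
group to `Γ` has an open kernel; it is locally slender if each nontrivial subgroup has a nontrivial
homomorphism to a slender group.

Theorem. Every homomorphism from `HamGroup n` to a locally slender group is trivial. The group `ℤ` is
slender, free groups are locally slender, and the class of locally slender groups is closed under
extensions and contains all groups which are residually in the class.
-/

set_option autoImplicit false

namespace Pool.Agent.Results.MP_68f289_gt.HomomorphismsToZ

/-- `ℝ^{2n}`, with coordinates `(x, y)` -/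
abbrev E (n : ℕ) : Type := (Fin n → ℝ) × (Fin n → ℝ)

/-- the open unit ball -/
def ball (n : ℕ) : Set (E n) := {p | ∑ i, ((p.1 i) ^ 2 + (p.2 i) ^ 2) < 1}

/-- the directional derivative of `h` at `p` in the direction `v` -/
noncomputable def dirDeriv {n : ℕ} (h : E n → ℝ) (p v : E n) : ℝ := fderiv ℝ h p v

/-- the unit vector of the coordinate `x i` -/
def ex {n : ℕ} (i : Fin n) : E n := (Pi.single i 1, 0)

/-- the unit vector of the coordinate `y i` -/
def ey {n : ℕ} (i : Fin n) : E n := (0, Pi.single i 1)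

/-- the Hamiltonian vector field `(∂h/∂y, -∂h/∂x)` of `h` -/
noncomputable def field {n : ℕ} (h : E n → ℝ) (p : E n) : E n :=
  (fun i => dirDeriv h p (ey i), fun i => -dirDeriv h p (ex i))

/-- the time dependent Hamiltonian `H` is smooth -/
def IsSmooth {n : ℕ} (H : ℝ → E n → ℝ) : Prop :=
  ContDiff ℝ ((⊤ : ℕ∞) : WithTop ℕ∞) (Function.uncurry H)

/-- `ψ` is the flow of the Hamiltonian `H` -/
def IsFlow {n : ℕ} (H : ℝ → E n → ℝ) (ψ : ℝ → E n → E n) : Prop :=
  (∀ x, ψ 0 x = x) ∧ ∀ t x, HasDerivAt (fun s => ψ s x) (field (H t) (ψ t x)) t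

/-- `u` is the time one map of the flow of a smooth Hamiltonian supported in a compact subset of the
open unit ball -/
def IsTimeOneMap {n : ℕ} (u : E n → E n) : Prop :=
  ∃ H : ℝ → E n → ℝ, IsSmooth H ∧
    (∃ K : Set (E n), IsCompact K ∧ K ⊆ ball n ∧ ∀ t x, x ∉ K → H t x = 0) ∧
    ∃ ψ : ℝ → E n → E n, IsFlow H ψ ∧ ∀ x, u x = ψ 1 x

/-- homeomorphisms of `ℝ^{2n}` -/
abbrev Homeo (n : ℕ) : Type := E n ≃ₜ E n

/-- `φ` is the identity off `K` -/
def FixesOff {n : ℕ} (K : Set (E n)) (φ : Homeo n) : Prop := ∀ x, x ∉ K → φ x = x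

/-- the sequence `u` converges uniformly to `φ` -/
def ConvergesTo {n : ℕ} (u : ℕ → Homeo n) (φ : Homeo n) : Prop :=
  TendstoUniformly (fun k x => u k x) (fun x => φ x) Filter.atTop

/-- the homeomorphisms supported in a compact subset `K` of the open unit ball that are uniform
limits of Hamiltonian diffeomorphisms supported in `K` -/
def hamBar (n : ℕ) : Set (Homeo n) :=
  {φ | ∃ K : Set (E n), IsCompact K ∧ K ⊆ ball n ∧ FixesOff K φ ∧
    ∃ u : ℕ → Homeo n, (∀ k, FixesOff K (u k)) ∧ (∀ k, IsTimeOneMap (u k)) ∧ ConvergesTo u φ}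

/-- the group of compactly supported Hamiltonian homeomorphisms of the open unit ball -/
def HamGroup (n : ℕ) : Type := ↥(Subgroup.closure (hamBar n))

noncomputable instance (n : ℕ) : Group (HamGroup n) :=
  inferInstanceAs (Group ↥(Subgroup.closure (hamBar n)))

/-- `Γ` is slender (cm-slender): every homomorphism from a completely metrizable topological group to
`Γ` has an open kernel -/
def IsSlender (Γ : Type) [Group Γ] : Prop :=
  ∀ (T : Type) [Group T] [MetricSpace T] [CompleteSpace T] [IsTopologicalGroup T] (c : T →* Γ),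
    IsOpen (c.ker : Set T)

/-- `Γ` is locally slender: every nontrivial subgroup of `Γ` has a nontrivial homomorphism to a
slender group -/
def IsLocallySlender (Γ : Type) [Group Γ] : Prop :=
  ∀ S : Subgroup Γ, S ≠ ⊥ → ∃ (Δ : Type) (_ : Group Δ) (d : S →* Δ), IsSlender Δ ∧ ∃ s, d s ≠ 1

/-! ### Proofs -/

theorem timeOne_iff {n : ℕ} (u : Homeo n) : IsTimeOneMap u ↔ Pool.Agent.Y453.HB.IsHam u := by
  constructor
  · rintro ⟨H, h1, h2, ψ, ⟨h3, h4⟩, h5⟩
    exact ⟨H, h1, h2, ψ, h3, h4, h5⟩
  · rintro ⟨H, h1, h2, ψ, h3, h4, h5⟩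
    exact ⟨H, h1, h2, ψ, ⟨h3, h4⟩, h5⟩

theorem hamBar_eq (n : ℕ) : hamBar n = Pool.Agent.Y453.HB.hamBar n := by
  ext φ
  constructor
  · rintro ⟨K, h1, h2, h3, u, h4, h5, h6⟩
    exact ⟨K, h1, h2, h3, u, h4, fun k => (timeOne_iff _).1 (h5 k), h6⟩
  · rintro ⟨K, h1, h2, h3, u, h4, h5, h6⟩
    exact ⟨K, h1, h2, h3, u, h4, fun k => (timeOne_iff _).2 (h5 k), h6⟩

theorem closure_eq (n : ℕ) : Subgroup.closure (hamBar n) = Pool.Agent.Y453.HB.HamBar n := by
  rw [hamBar_eq]
  rfl

/-- the two groups -/
noncomputable def iso (n : ℕ) : HamGroup n ≃* Pool.Agent.Y453.HB.HamBar n :=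
  MulEquiv.subgroupCongr (closure_eq n)

/-- Let `HamGroup n` be the group of compactly supported Hamiltonian homeomorphisms of the open unit
ball of `ℝ^{2n}`.

(1) Every homomorphism from `HamGroup n` to a locally slender group `Γ` is trivial.

(2) The infinite cyclic group is slender, slender groups are locally slender, and free groups are
locally slender. So `HamGroup n` has no nontrivial homomorphism to `ℤ` or to a free group.

(3) If the kernel of a homomorphism `d : Γ →* Δ` and the group `Δ` are locally slender, then so is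
`Γ`.

(4) If for every `g ≠ 1` in `Γ` there is a homomorphism from `Γ` to a locally slender group which does
not kill `g`, then `Γ` is locally slender. -/
theorem result (n : ℕ) :
    (∀ (Γ : Type) [Group Γ], IsLocallySlender Γ → ∀ (c : HamGroup n →* Γ) (φ : HamGroup n),
      c φ = 1) ∧
    (IsSlender (Multiplicative ℤ) ∧ (∀ (Γ : Type) [Group Γ], IsSlender Γ → IsLocallySlender Γ) ∧
      ∀ α : Type, IsLocallySlender (FreeGroup α)) ∧
    (∀ (Γ Δ : Type) [Group Γ] [Group Δ] (d : Γ →* Δ), IsLocallySlender Δ →
      IsLocallySlender d.ker → IsLocallySlender Γ) ∧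
    (∀ (Γ : Type) [Group Γ], (∀ g : Γ, g ≠ 1 →
      ∃ (Δ : Type) (_ : Group Δ) (d : Γ →* Δ), IsLocallySlender Δ ∧ d g ≠ 1) →
      IsLocallySlender Γ) := by
  refine ⟨fun Γ _ hΓ c φ => ?_, ⟨Pool.Agent.X277.Ham.slender_int,
    fun Γ _ h => Pool.Agent.X277.Ham.locSlender_of h,
    fun α => Pool.Agent.X277.Ham.locSlender_free α⟩,
    fun Γ Δ _ _ d h h' => Pool.Agent.X277.Ham.locSlender_ext d h h',
    fun Γ _ h => Pool.Agent.X277.Ham.locSlender_residual h⟩
  have h := Pool.Agent.X277.Ham.nohom' hΓ (c.comp (iso n).symm.toMonoidHom) (iso n φ)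
  simpa using h

end Pool.Agent.Results.MP_68f289_gt.HomomorphismsToZ
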