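import Pool.Agent.X277.Ham.Norm5

/-!
# MP_68f289_gt: the smallest normal subgroup of the Hamiltonian homeomorphisms of the ball

`HamGroup n` is the group of the frozen statement S13311: the homeomorphisms of `ℝ^{2n}` which are
supported in a compact subset of the open unit ball and are uniform limits of time one maps of smooth
Hamiltonian flows supported in the same compact set (here every `n ≥ 1` is allowed).

Theorem. The group has a smallest nontrivial normal subgroup `M`, and `M` is a simple group. It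
contains the commutators of all Hamiltonian diffeomorphisms, and the commutators of all Hamiltonian
homeomorphisms supported in a compact set `W` which is disjoint from its image under some Hamiltonian
homeomorphism. Each Hamiltonian homeomorphism is the uniform limit of elements of `M` with supports in
a common compact set; so the group is topologically simple.
-/

set_option autoImplicit false

namespace Pool.Agent.Results.MP_68f289_gt.NormalSubgroups

open scoped commutatorElement

/-- `ℝ^{2n}`, with coordinates `(x, y)` -/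
abbrev E (n : ℕ) : Type := (Fin n → ℝ) × (Fin n → ℝ)

/-- the open unit ball -/
def ball (n : ℕ) : Set (E n) := {p | ∑ i, ((p.1 i) ^ 2 + (p.2 i) ^ 2) < 1}

/-- the directional derivative of `h` at `p` in the direction `v` -/
noncomputable def dirDeriv {n : ℕ} (h : E n → ℝ) (p v : E n) : ℝ := fderiv ℝ h p v

/-- the unit vector of the coordinate `x i` -/
def ex {n : ℕ} (i : Fin n) : E n := (Pi.single i 1, 0)

/-- the unit vector of the coordinate `y i` -/
def ey {n : ℕ} (i : Fin n) : E n := (0, Pi.single i 1)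

/-- the Hamiltonian vector field `(∂h/∂y, -∂h/∂x)` of `h` -/
noncomputable def field {n : ℕ} (h : E n → ℝ) (p : E n) : E n :=
  (fun i => dirDeriv h p (ey i), fun i => -dirDeriv h p (ex i))

/-- the time dependent Hamiltonian `H` is smooth -/
def IsSmooth {n : ℕ} (H : ℝ → E n → ℝ) : Prop :=
  ContDiff ℝ ((⊤ : ℕ∞) : WithTop ℕ∞) (Function.uncurry H)

/-- `ψ` is the flow of the Hamiltonian `H` -/
def IsFlow {n : ℕ} (H : ℝ → E n → ℝ) (ψ : ℝ → E n → E n) : Prop :=
  (∀ x, ψ 0 x = x) ∧ ∀ t x, HasDerivAt (fun s => ψ s x) (field (H t) (ψ t x)) t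

/-- `u` is the time one map of the flow of a smooth Hamiltonian supported in a compact subset of the
open unit ball -/
def IsTimeOneMap {n : ℕ} (u : E n → E n) : Prop :=
  ∃ H : ℝ → E n → ℝ, IsSmooth H ∧
    (∃ K : Set (E n), IsCompact K ∧ K ⊆ ball n ∧ ∀ t x, x ∉ K → H t x = 0) ∧
    ∃ ψ : ℝ → E n → E n, IsFlow H ψ ∧ ∀ x, u x = ψ 1 x

/-- homeomorphisms of `ℝ^{2n}` -/
abbrev Homeo (n : ℕ) : Type := E n ≃ₜ E n

/-- `φ` is the identity off `K` -/
def FixesOff {n : ℕ} (K : Set (E n)) (φ : Homeo n) : Prop := ∀ x, x ∉ K → φ x = x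

/-- the sequence `u` converges uniformly to `φ` -/
def ConvergesTo {n : ℕ} (u : ℕ → Homeo n) (φ : Homeo n) : Prop :=
  TendstoUniformly (fun k x => u k x) (fun x => φ x) Filter.atTop

/-- the homeomorphisms supported in a compact subset `K` of the open unit ball that are uniform
limits of Hamiltonian diffeomorphisms supported in `K` -/
def hamBar (n : ℕ) : Set (Homeo n) :=
  {φ | ∃ K : Set (E n), IsCompact K ∧ K ⊆ ball n ∧ FixesOff K φ ∧
    ∃ u : ℕ → Homeo n, (∀ k, FixesOff K (u k)) ∧ (∀ k, IsTimeOneMap (u k)) ∧ ConvergesTo u φ}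

/-- the group of compactly supported Hamiltonian homeomorphisms of the open unit ball -/
def HamGroup (n : ℕ) : Type := ↥(Subgroup.closure (hamBar n))

noncomputable instance (n : ℕ) : Group (HamGroup n) :=
  inferInstanceAs (Group ↥(Subgroup.closure (hamBar n)))

/-- the homeomorphism `φ` as a map -/
def HamGroup.map {n : ℕ} (φ : HamGroup n) : E n → E n := (φ.1 : Homeo n)

/-- the support of `φ` is in `W` -/
def HamGroup.SupportedIn {n : ℕ} (φ : HamGroup n) (W : Set (E n)) : Prop := ∀ x, x ∉ W → φ.map x = x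

/-- `f k → φ` uniformly, with supports in a common compact subset of the open unit ball -/
def HamConverges {n : ℕ} (f : ℕ → HamGroup n) (φ : HamGroup n) : Prop :=
  ∃ K : Set (E n), IsCompact K ∧ K ⊆ ball n ∧ φ.SupportedIn K ∧ (∀ k, (f k).SupportedIn K) ∧
    TendstoUniformly (fun k x => (f k).map x) φ.map Filter.atTop

/-- the set `W` is disjoint from its image under some element of the group -/
def Displaceable {n : ℕ} (W : Set (E n)) : Prop := ∃ T : HamGroup n, Disjoint (T.map '' W) W

/-! ### Proofs -/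

theorem timeOne_iff {n : ℕ} (u : Homeo n) : IsTimeOneMap u ↔ Pool.Agent.Y453.HB.IsHam u := by
  constructor
  · rintro ⟨H, h1, h2, ψ, ⟨h3, h4⟩, h5⟩
    exact ⟨H, h1, h2, ψ, h3, h4, h5⟩
  · rintro ⟨H, h1, h2, ψ, h3, h4, h5⟩
    exact ⟨H, h1, h2, ψ, ⟨h3, h4⟩, h5⟩

theorem hamBar_eq (n : ℕ) : hamBar n = Pool.Agent.Y453.HB.hamBar n := by
  ext φ
  constructor
  · rintro ⟨K, h1, h2, h3, u, h4, h5, h6⟩
    exact ⟨K, h1, h2, h3, u, h4, fun k => (timeOne_iff _).1 (h5 k), h6⟩
  · rintro ⟨K, h1, h2, h3, u, h4, h5, h6⟩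
    exact ⟨K, h1, h2, h3, u, h4, fun k => (timeOne_iff _).2 (h5 k), h6⟩

theorem closure_eq (n : ℕ) : Subgroup.closure (hamBar n) = Pool.Agent.Y453.HB.HamBar n := by
  rw [hamBar_eq]
  rfl

/-- the statement for any subgroup equal to the group of Hamiltonian homeomorphisms -/
theorem main (n : ℕ) (hn : 0 < n) : ∀ G : Subgroup (E n ≃ₜ E n), G = Pool.Agent.Y453.HB.HamBar n →
    ∃ M : Subgroup G, M.Normal ∧ IsSimpleGroup M ∧
      (∀ N : Subgroup G, N.Normal → N ≠ ⊥ → M ≤ N) ∧
      (∀ u v : G, Pool.Agent.Y453.HB.IsHam (u : E n ≃ₜ E n) →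
        Pool.Agent.Y453.HB.IsHam (v : E n ≃ₜ E n) → ⁅u, v⁆ ∈ M) ∧
      (∀ W : Set (E n), IsCompact W → (∃ T : G, Disjoint ((T : E n ≃ₜ E n) '' W) W) →
        (∀ g h : G, Pool.Agent.X277.Ham.Sup W (g : E n ≃ₜ E n) →
          Pool.Agent.X277.Ham.Sup W (h : E n ≃ₜ E n) → ⁅g, h⁆ ∈ M) ∧
        ∀ g u : G, Pool.Agent.X277.Ham.Sup W (g : E n ≃ₜ E n) →
          Pool.Agent.Y453.HB.IsHam (u : E n ≃ₜ E n) → ⁅g, u⁆ ∈ M) ∧
      (∀ φ : G, ∃ K : Set (E n), IsCompact K ∧ K ⊆ {p : E n | Pool.Agent.Y453.HB.Q p < 1} ∧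
        Pool.Agent.X277.Ham.Sup K (φ : E n ≃ₜ E n) ∧ ∃ f : ℕ → G, (∀ k, f k ∈ M) ∧
          (∀ k, Pool.Agent.Y453.HB.IsHam (f k : E n ≃ₜ E n)) ∧
          (∀ k, Pool.Agent.X277.Ham.Sup K (f k : E n ≃ₜ E n)) ∧
          TendstoUniformly (fun (k : ℕ) (x : E n) => (f k : E n ≃ₜ E n) x)
            (fun x => (φ : E n ≃ₜ E n) x) Filter.atTop) := by
  rintro _ rfl
  exact Pool.Agent.X277.Ham.smallest hn

/-- Let `n ≥ 1` and let `HamGroup n` be the group of compactly supported Hamiltonian homeomorphisms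
of the open unit ball of `ℝ^{2n}`. There is a normal subgroup `M` of `HamGroup n` such that

(1) `M` is a simple group, and it is contained in every nontrivial normal subgroup of `HamGroup n`;

(2) `M` contains the commutators of any two Hamiltonian diffeomorphisms;

(3) if the compact set `W` is displaceable, then `M` contains the commutator of `g` and `h` for all
`g`, `h` in the group supported in `W`, and for all `g` supported in `W` and all Hamiltonian
diffeomorphisms `h`;

(4) every element of the group is a uniform limit of Hamiltonian diffeomorphisms in `M`, with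
supports in a common compact subset of the open unit ball;

(5) a nontrivial normal subgroup of `HamGroup n` which is closed under uniform limits with supports
in a common compact subset of the open unit ball is the whole group. -/
theorem result (n : ℕ) (hn : 0 < n) :
    ∃ M : Subgroup (HamGroup n), M.Normal ∧
      (IsSimpleGroup M ∧ ∀ N : Subgroup (HamGroup n), N.Normal → N ≠ ⊥ → M ≤ N) ∧
      (∀ u v : HamGroup n, IsTimeOneMap u.map → IsTimeOneMap v.map → ⁅u, v⁆ ∈ M) ∧
      (∀ W : Set (E n), IsCompact W → Displaceable W → ∀ g h : HamGroup n, g.SupportedIn W →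
        (h.SupportedIn W ∨ IsTimeOneMap h.map) → ⁅g, h⁆ ∈ M) ∧
      (∀ φ : HamGroup n, ∃ f : ℕ → HamGroup n, (∀ k, f k ∈ M ∧ IsTimeOneMap (f k).map) ∧
        HamConverges f φ) ∧
      (∀ N : Subgroup (HamGroup n), N.Normal → N ≠ ⊥ →
        (∀ (f : ℕ → HamGroup n) (φ : HamGroup n), (∀ k, f k ∈ N) → HamConverges f φ → φ ∈ N) →
        N = ⊤) := by
  obtain ⟨M, h1, h2, h3, h4, h5, h6⟩ := main n hn (Subgroup.closure (hamBar n)) (closure_eq n)
  have hdense : ∀ φ : HamGroup n, ∃ f : ℕ → HamGroup n,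
      (∀ k, f k ∈ M ∧ IsTimeOneMap (f k).map) ∧ HamConverges f φ := by
    intro φ
    obtain ⟨K, hK, hK1, hφ, f, hf1, hf2, hf3, hf4⟩ := h6 φ
    exact ⟨f, fun k => ⟨hf1 k, (timeOne_iff _).2 (hf2 k)⟩, K, hK, hK1, hφ, hf3, hf4⟩
  refine ⟨M, h1, ⟨h2, h3⟩, fun u v hu hv => h4 u v ((timeOne_iff _).1 hu) ((timeOne_iff _).1 hv),
    fun W hW hT g h hg hh => ?_, hdense, fun N hN hne hcl => ?_⟩
  · obtain ⟨h7, h8⟩ := h5 W hW hT
    rcases hh with hh | hh
    · exact h7 g h hg hh
    · exact h8 g h hg ((timeOne_iff _).1 hh)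
  · rw [Subgroup.eq_top_iff']
    intro φ
    obtain ⟨f, hf1, hf2⟩ := hdense φ
    exact hcl f φ (fun k => h3 N hN hne (hf1 k).1) hf2

end Pool.Agent.Results.MP_68f289_gt.NormalSubgroups
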