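import Pool.Agent.X277.Ham.QM

/-!
# MP_68f289_gt: homogeneous quasimorphisms with a gap on the Hamiltonian homeomorphisms of the ball

`HamGroup n` is the group of the frozen statement S13311: the homeomorphisms of `ℝ^{2n}` which are
supported in a compact subset of the open unit ball and are uniform limits of time one maps of smooth
Hamiltonian flows supported in the same compact set (here every `n` is allowed).

Theorem. Every homogeneous quasimorphism on the group which has no values in `(0, δ)`, for some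
`δ > 0`, is zero. So a nonzero homogeneous quasimorphism on the group has arbitrarily small nonzero
values; in particular there is no nonzero homogeneous quasimorphism with values in a discrete
subgroup of `ℝ`.
-/

set_option autoImplicit false

namespace Pool.Agent.Results.MP_68f289_gt.QuasimorphismGap

/-- `ℝ^{2n}`, with coordinates `(x, y)` -/
abbrev E (n : ℕ) : Type := (Fin n → ℝ) × (Fin n → ℝ)

/-- the open unit ball -/
def ball (n : ℕ) : Set (E n) := {p | ∑ i, ((p.1 i) ^ 2 + (p.2 i) ^ 2) < 1}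

/-- the directional derivative of `h` at `p` in the direction `v` -/
noncomputable def dirDeriv {n : ℕ} (h : E n → ℝ) (p v : E n) : ℝ := fderiv ℝ h p v

/-- the unit vector of the coordinate `x i` -/
def ex {n : ℕ} (i : Fin n) : E n := (Pi.single i 1, 0)

/-- the unit vector of the coordinate `y i` -/
def ey {n : ℕ} (i : Fin n) : E n := (0, Pi.single i 1)

/-- the Hamiltonian vector field `(∂h/∂y, -∂h/∂x)` of `h` -/
noncomputable def field {n : ℕ} (h : E n → ℝ) (p : E n) : E n :=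
  (fun i => dirDeriv h p (ey i), fun i => -dirDeriv h p (ex i))

/-- the time dependent Hamiltonian `H` is smooth -/
def IsSmooth {n : ℕ} (H : ℝ → E n → ℝ) : Prop :=
  ContDiff ℝ ((⊤ : ℕ∞) : WithTop ℕ∞) (Function.uncurry H)

/-- `ψ` is the flow of the Hamiltonian `H` -/
def IsFlow {n : ℕ} (H : ℝ → E n → ℝ) (ψ : ℝ → E n → E n) : Prop :=
  (∀ x, ψ 0 x = x) ∧ ∀ t x, HasDerivAt (fun s => ψ s x) (field (H t) (ψ t x)) t

/-- `u` is the time one map of the flow of a smooth Hamiltonian supported in a compact subset of the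
open unit ball -/
def IsTimeOneMap {n : ℕ} (u : E n → E n) : Prop :=
  ∃ H : ℝ → E n → ℝ, IsSmooth H ∧
    (∃ K : Set (E n), IsCompact K ∧ K ⊆ ball n ∧ ∀ t x, x ∉ K → H t x = 0) ∧
    ∃ ψ : ℝ → E n → E n, IsFlow H ψ ∧ ∀ x, u x = ψ 1 x

/-- homeomorphisms of `ℝ^{2n}` -/
abbrev Homeo (n : ℕ) : Type := E n ≃ₜ E n

/-- `φ` is the identity off `K` -/
def FixesOff {n : ℕ} (K : Set (E n)) (φ : Homeo n) : Prop := ∀ x, x ∉ K → φ x = x

/-- the sequence `u` converges uniformly to `φ` -/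
def ConvergesTo {n : ℕ} (u : ℕ → Homeo n) (φ : Homeo n) : Prop :=
  TendstoUniformly (fun k x => u k x) (fun x => φ x) Filter.atTop

/-- the homeomorphisms supported in a compact subset `K` of the open unit ball that are uniform
limits of Hamiltonian diffeomorphisms supported in `K` -/
def hamBar (n : ℕ) : Set (Homeo n) :=
  {φ | ∃ K : Set (E n), IsCompact K ∧ K ⊆ ball n ∧ FixesOff K φ ∧
    ∃ u : ℕ → Homeo n, (∀ k, FixesOff K (u k)) ∧ (∀ k, IsTimeOneMap (u k)) ∧ ConvergesTo u φ}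

/-- the group of compactly supported Hamiltonian homeomorphisms of the open unit ball -/
def HamGroup (n : ℕ) : Type := ↥(Subgroup.closure (hamBar n))

noncomputable instance (n : ℕ) : Group (HamGroup n) :=
  inferInstanceAs (Group ↥(Subgroup.closure (hamBar n)))

/-- `c` is a homogeneous quasimorphism on the group `G` -/
structure IsHomogeneousQuasimorphism {G : Type} [Group G] (c : G → ℝ) : Prop where
  bounded : ∃ D : ℝ, ∀ φ ψ : G, |c (φ * ψ) - c φ - c ψ| ≤ D
  pow : ∀ (φ : G) (m : ℕ), c (φ ^ m) = m * c φ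

/-! ### Proofs -/

theorem timeOne_iff {n : ℕ} (u : Homeo n) : IsTimeOneMap u ↔ Pool.Agent.Y453.HB.IsHam u := by
  constructor
  · rintro ⟨H, h1, h2, ψ, ⟨h3, h4⟩, h5⟩
    exact ⟨H, h1, h2, ψ, h3, h4, h5⟩
  · rintro ⟨H, h1, h2, ψ, h3, h4, h5⟩
    exact ⟨H, h1, h2, ψ, ⟨h3, h4⟩, h5⟩

theorem hamBar_eq (n : ℕ) : hamBar n = Pool.Agent.Y453.HB.hamBar n := by
  ext φ
  constructor
  · rintro ⟨K, h1, h2, h3, u, h4, h5, h6⟩
    exact ⟨K, h1, h2, h3, u, h4, fun k => (timeOne_iff _).1 (h5 k), h6⟩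
  · rintro ⟨K, h1, h2, h3, u, h4, h5, h6⟩
    exact ⟨K, h1, h2, h3, u, h4, fun k => (timeOne_iff _).2 (h5 k), h6⟩

theorem closure_eq (n : ℕ) : Subgroup.closure (hamBar n) = Pool.Agent.Y453.HB.HamBar n := by
  rw [hamBar_eq]
  rfl

/-- the two groups -/
noncomputable def iso (n : ℕ) : HamGroup n ≃* Pool.Agent.Y453.HB.HamBar n :=
  MulEquiv.subgroupCongr (closure_eq n)

theorem neg_value {G : Type} [Group G] {c : G → ℝ} (h : IsHomogeneousQuasimorphism c) (φ : G) :
    c φ⁻¹ = -c φ := by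
  obtain ⟨D, hD⟩ := h.bounded
  have h1 : c 1 = 0 := by
    have := h.pow 1 0
    simpa using this
  have h2 : ∀ m : ℕ, (m : ℝ) * |c φ⁻¹ + c φ| ≤ D := by
    intro m
    have h3 := hD (φ⁻¹ ^ m) (φ ^ m)
    rw [inv_pow, inv_mul_cancel, h1, ← inv_pow, h.pow, h.pow] at h3
    have h4 : |0 - (m : ℝ) * c φ⁻¹ - m * c φ| = m * |c φ⁻¹ + c φ| := by
      rw [show (0 : ℝ) - m * c φ⁻¹ - m * c φ = -(m * (c φ⁻¹ + c φ)) by ring, abs_neg, abs_mul,
        Nat.abs_cast]
    rwa [h4] at h3
  by_contra hne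
  have h5 : 0 < |c φ⁻¹ + c φ| := abs_pos.2 fun h6 => hne (by linarith)
  obtain ⟨m, hm⟩ := exists_nat_gt (D / |c φ⁻¹ + c φ|)
  rw [div_lt_iff₀ h5] at hm
  linarith [h2 m]

theorem gap {n : ℕ} (c : HamGroup n → ℝ) (hc : IsHomogeneousQuasimorphism c) {δ : ℝ} (hδ : 0 < δ)
    (hg : ∀ φ, ¬ (0 < c φ ∧ c φ < δ)) (φ : HamGroup n) : c φ = 0 := by
  have hc' := hc
  obtain ⟨⟨D, hD⟩, hpow⟩ := hc'
  have hq : Pool.Agent.X277.Ham.IsHQ D fun ψ => c ((iso n).symm ψ) :=
    ⟨fun x y => by
      simp only [map_mul]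
      exact hD _ _, fun x m => by
      simp only [map_pow]
      exact hpow _ m⟩
  have h := Pool.Agent.X277.Ham.qm_gap hδ hq (fun x hx => by
    by_contra hlt
    push Not at hlt
    rcases lt_or_gt_of_ne hx with h1 | h1
    · apply hg ((iso n).symm x)⁻¹
      rw [neg_value hc]
      rw [abs_of_neg h1] at hlt
      exact ⟨by linarith, hlt⟩
    · apply hg ((iso n).symm x)
      rw [abs_of_pos h1] at hlt
      exact ⟨h1, hlt⟩) (iso n φ)
  simpa using h

/-- Let `HamGroup n` be the group of compactly supported Hamiltonian homeomorphisms of the open unit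
ball of `ℝ^{2n}`, and `c` a homogeneous quasimorphism on it.

(1) If there is `δ > 0` such that `c` has no values in `(0, δ)`, then `c = 0`.

(2) If `c ≠ 0`, then `c` has arbitrarily small positive values.

(3) If the values of `c` are integral multiples of one real number `a`, then `c = 0`. -/
theorem result (n : ℕ) (c : HamGroup n → ℝ) (hc : IsHomogeneousQuasimorphism c) :
    (∀ δ : ℝ, 0 < δ → (∀ φ, ¬ (0 < c φ ∧ c φ < δ)) → ∀ φ, c φ = 0) ∧
    ((∃ φ, c φ ≠ 0) → ∀ δ : ℝ, 0 < δ → ∃ φ, 0 < c φ ∧ c φ < δ) ∧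
    (∀ a : ℝ, (∀ φ, ∃ k : ℤ, c φ = k * a) → ∀ φ, c φ = 0) := by
  refine ⟨fun δ hδ hg φ => gap c hc hδ hg φ, fun ⟨φ, hφ⟩ δ hδ => ?_, fun a ha φ => ?_⟩
  · by_contra hno
    push Not at hno
    refine hφ (gap c hc hδ (fun ψ h => ?_) φ)
    exact absurd h.2 (not_lt.2 (hno ψ h.1))
  · rcases eq_or_ne a 0 with rfl | ha0
    · obtain ⟨k, hk⟩ := ha φ
      rw [hk, mul_zero]
    · refine gap c hc (abs_pos.2 ha0) (fun ψ h => ?_) φ
      obtain ⟨k, hk⟩ := ha ψ
      have h1 : c ψ = |c ψ| := (abs_of_pos h.1).symm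
      have hk0 : k ≠ 0 := by
        rintro rfl
        rw [Int.cast_zero, zero_mul] at hk
        exact h.1.ne' hk
      have h2 : (1 : ℝ) ≤ |(k : ℝ)| := by
        have := Int.one_le_abs hk0
        exact_mod_cast this
      have h3 : |a| ≤ c ψ := by
        rw [h1, hk, abs_mul]
        exact le_mul_of_one_le_left (abs_nonneg a) h2
      exact absurd h.2 (not_lt.2 h3)

end Pool.Agent.Results.MP_68f289_gt.QuasimorphismGap
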