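import Pool.Agent.X277.Ham.Norm5

/-!
# MP_68f289_gt: when is the group of Hamiltonian homeomorphisms of the ball simple

`HamGroup n` is the group of the frozen statement S13311: the homeomorphisms of `ℝ^{2n}` which are
supported in a compact subset of the open unit ball and are uniform limits of time one maps of smooth
Hamiltonian flows supported in the same compact set (here every `n ≥ 1` is allowed). For `0 < s ≤ 1`
the conjugate of `φ` by the dilation `x ↦ s x` is denoted `φ^{(s)}`.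

Theorem. The group `HamGroup n` is simple if and only if it is perfect and it is the normal closure of
the elements `φ^{(1/2)}`. If it is generated by the conjugates of the elements `φ^{(1/2)}` by
Hamiltonian diffeomorphisms, then its commutator subgroup is simple, and is contained in each
nontrivial normal subgroup.
-/

set_option autoImplicit false

namespace Pool.Agent.Results.MP_68f289_gt.SimplicityCriterion

open scoped commutatorElement

/-- `ℝ^{2n}`, with coordinates `(x, y)` -/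
abbrev E (n : ℕ) : Type := (Fin n → ℝ) × (Fin n → ℝ)

/-- the open unit ball -/
def ball (n : ℕ) : Set (E n) := {p | ∑ i, ((p.1 i) ^ 2 + (p.2 i) ^ 2) < 1}

/-- the directional derivative of `h` at `p` in the direction `v` -/
noncomputable def dirDeriv {n : ℕ} (h : E n → ℝ) (p v : E n) : ℝ := fderiv ℝ h p v

/-- the unit vector of the coordinate `x i` -/
def ex {n : ℕ} (i : Fin n) : E n := (Pi.single i 1, 0)

/-- the unit vector of the coordinate `y i` -/
def ey {n : ℕ} (i : Fin n) : E n := (0, Pi.single i 1)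

/-- the Hamiltonian vector field `(∂h/∂y, -∂h/∂x)` of `h` -/
noncomputable def field {n : ℕ} (h : E n → ℝ) (p : E n) : E n :=
  (fun i => dirDeriv h p (ey i), fun i => -dirDeriv h p (ex i))

/-- the time dependent Hamiltonian `H` is smooth -/
def IsSmooth {n : ℕ} (H : ℝ → E n → ℝ) : Prop :=
  ContDiff ℝ ((⊤ : ℕ∞) : WithTop ℕ∞) (Function.uncurry H)

/-- `ψ` is the flow of the Hamiltonian `H` -/
def IsFlow {n : ℕ} (H : ℝ → E n → ℝ) (ψ : ℝ → E n → E n) : Prop :=
  (∀ x, ψ 0 x = x) ∧ ∀ t x, HasDerivAt (fun s => ψ s x) (field (H t) (ψ t x)) t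

/-- `u` is the time one map of the flow of a smooth Hamiltonian supported in a compact subset of the
open unit ball -/
def IsTimeOneMap {n : ℕ} (u : E n → E n) : Prop :=
  ∃ H : ℝ → E n → ℝ, IsSmooth H ∧
    (∃ K : Set (E n), IsCompact K ∧ K ⊆ ball n ∧ ∀ t x, x ∉ K → H t x = 0) ∧
    ∃ ψ : ℝ → E n → E n, IsFlow H ψ ∧ ∀ x, u x = ψ 1 x

/-- homeomorphisms of `ℝ^{2n}` -/
abbrev Homeo (n : ℕ) : Type := E n ≃ₜ E n

/-- `φ` is the identity off `K` -/
def FixesOff {n : ℕ} (K : Set (E n)) (φ : Homeo n) : Prop := ∀ x, x ∉ K → φ x = x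

/-- the sequence `u` converges uniformly to `φ` -/
def ConvergesTo {n : ℕ} (u : ℕ → Homeo n) (φ : Homeo n) : Prop :=
  TendstoUniformly (fun k x => u k x) (fun x => φ x) Filter.atTop

/-- the homeomorphisms supported in a compact subset `K` of the open unit ball that are uniform
limits of Hamiltonian diffeomorphisms supported in `K` -/
def hamBar (n : ℕ) : Set (Homeo n) :=
  {φ | ∃ K : Set (E n), IsCompact K ∧ K ⊆ ball n ∧ FixesOff K φ ∧
    ∃ u : ℕ → Homeo n, (∀ k, FixesOff K (u k)) ∧ (∀ k, IsTimeOneMap (u k)) ∧ ConvergesTo u φ}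

/-- the group of compactly supported Hamiltonian homeomorphisms of the open unit ball -/
def HamGroup (n : ℕ) : Type := ↥(Subgroup.closure (hamBar n))

noncomputable instance (n : ℕ) : Group (HamGroup n) :=
  inferInstanceAs (Group ↥(Subgroup.closure (hamBar n)))

/-- the homeomorphism `φ` as a map -/
def HamGroup.map {n : ℕ} (φ : HamGroup n) : E n → E n := (φ.1 : Homeo n)

/-- `φ'` is the conjugate `φ^{(s)}` of `φ` by the dilation `x ↦ s x` -/
def IsDilate {n : ℕ} (s : ℝ) (φ φ' : HamGroup n) : Prop := ∀ x, φ'.map (s • x) = s • φ.map x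

/-- the elements `φ^{(s)}` of the group -/
def dilates (n : ℕ) (s : ℝ) : Set (HamGroup n) := {φ' | ∃ φ, IsDilate s φ φ'}

/-- the conjugates of the elements `φ^{(s)}` by Hamiltonian diffeomorphisms -/
def conjDilates (n : ℕ) (s : ℝ) : Set (HamGroup n) :=
  {g | ∃ u φ' : HamGroup n, IsTimeOneMap u.map ∧ φ' ∈ dilates n s ∧ g = u * φ' * u⁻¹}

/-! ### Proofs -/

theorem timeOne_iff {n : ℕ} (u : Homeo n) : IsTimeOneMap u ↔ Pool.Agent.Y453.HB.IsHam u := by
  constructor
  · rintro ⟨H, h1, h2, ψ, ⟨h3, h4⟩, h5⟩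
    exact ⟨H, h1, h2, ψ, h3, h4, h5⟩
  · rintro ⟨H, h1, h2, ψ, h3, h4, h5⟩
    exact ⟨H, h1, h2, ψ, ⟨h3, h4⟩, h5⟩

theorem hamBar_eq (n : ℕ) : hamBar n = Pool.Agent.Y453.HB.hamBar n := by
  ext φ
  constructor
  · rintro ⟨K, h1, h2, h3, u, h4, h5, h6⟩
    exact ⟨K, h1, h2, h3, u, h4, fun k => (timeOne_iff _).1 (h5 k), h6⟩
  · rintro ⟨K, h1, h2, h3, u, h4, h5, h6⟩
    exact ⟨K, h1, h2, h3, u, h4, fun k => (timeOne_iff _).2 (h5 k), h6⟩

theorem closure_eq (n : ℕ) : Subgroup.closure (hamBar n) = Pool.Agent.Y453.HB.HamBar n := by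
  rw [hamBar_eq]
  rfl

/-- dilates in any subgroup equal to the group of Hamiltonian homeomorphisms -/
def Dil {n : ℕ} (G : Subgroup (E n ≃ₜ E n)) (s : ℝ) (φ φ' : G) : Prop :=
  ∀ x : E n, (φ' : E n ≃ₜ E n) (s • x) = s • (φ : E n ≃ₜ E n) x

theorem dil_iff {n : ℕ} {s : ℝ} (hs : 0 < s) (hs1 : s ≤ 1) {φ φ' : Pool.Agent.Y453.HB.HamBar n} :
    Dil (Pool.Agent.Y453.HB.HamBar n) s φ φ' ↔
      φ' = Pool.Agent.X277.Ham.dilHom s hs hs1 φ := by
  constructor
  · intro h
    apply Subtype.ext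
    refine Homeomorph.ext fun x => ?_
    have h1 := h (s⁻¹ • x)
    rw [smul_smul, mul_inv_cancel₀ hs.ne', one_smul] at h1
    exact h1
  · rintro rfl x
    show s • (φ : E n ≃ₜ E n) (s⁻¹ • s • x) = s • (φ : E n ≃ₜ E n) x
    rw [smul_smul s⁻¹ s x, inv_mul_cancel₀ hs.ne', one_smul]

theorem main (n : ℕ) (hn : 0 < n) : ∀ G : Subgroup (E n ≃ₜ E n), G = Pool.Agent.Y453.HB.HamBar n →
    (∀ N : Subgroup G, N.Normal → N ≠ ⊥ → ∀ s : ℝ, 0 < s → s ≤ 1 / 2 →
      ∀ φ φ' ψ ψ' : G, Dil G s φ φ' → Dil G s ψ ψ' → ⁅φ', ψ'⁆ ∈ N) ∧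
    (commutator G = ⊤ → ∀ N : Subgroup G, N.Normal → N ≠ ⊥ → ∀ s : ℝ, 0 < s → s ≤ 1 / 2 →
      ∀ φ φ' : G, Dil G s φ φ' → φ' ∈ N) ∧
    (IsSimpleGroup G ↔ commutator G = ⊤ ∧
      Subgroup.normalClosure {φ' : G | ∃ φ, Dil G (1 / 2) φ φ'} = ⊤) ∧
    (Subgroup.closure {g : G | ∃ u φ' : G, Pool.Agent.Y453.HB.IsHam (u : E n ≃ₜ E n) ∧
        (∃ φ, Dil G (1 / 2) φ φ') ∧ g = u * φ' * u⁻¹} = ⊤ →
      IsSimpleGroup (commutator G) ∧ (∀ N : Subgroup G, N.Normal → N ≠ ⊥ → commutator G ≤ N)) := by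
  rintro _ rfl
  have hset : {φ' : Pool.Agent.Y453.HB.HamBar n |
      ∃ φ, Dil (Pool.Agent.Y453.HB.HamBar n) (1 / 2) φ φ'} =
      Set.range (Pool.Agent.X277.Ham.dilHom (n := n) (1 / 2) (by norm_num) (by norm_num)) := by
    ext φ'
    constructor
    · rintro ⟨φ, hφ⟩
      exact ⟨φ, ((dil_iff (by norm_num) (by norm_num)).1 hφ).symm⟩
    · rintro ⟨φ, rfl⟩
      exact ⟨φ, (dil_iff (by norm_num) (by norm_num)).2 rfl⟩
  refine ⟨fun N hN hne s hs hs1 φ φ' ψ ψ' h h' => ?_, fun hp N hN hne s hs hs1 φ φ' h => ?_, ?_,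
    fun hgen => ?_⟩
  · rw [(dil_iff hs (by linarith)).1 h, (dil_iff hs (by linarith)).1 h']
    exact Pool.Agent.X277.Ham.Mn_le hN hne (Pool.Agent.X277.Ham.dil_comm hn hs hs1 φ ψ)
  · rw [(dil_iff hs (by linarith)).1 h]
    exact Pool.Agent.X277.Ham.Mn_le hN hne (Pool.Agent.X277.Ham.dil_of_perfect hn hp hs hs1 φ)
  · rw [hset]
    exact Pool.Agent.X277.Ham.simple_iff hn
  · have hgen' : Subgroup.closure {g : Pool.Agent.Y453.HB.HamBar n |
        ∃ u φ : Pool.Agent.Y453.HB.HamBar n, Pool.Agent.Y453.HB.IsHam (u : E n ≃ₜ E n) ∧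
          g = u * Pool.Agent.X277.Ham.dilHom (1 / 2) (by norm_num) (by norm_num) φ * u⁻¹} = ⊤ := by
      rw [← hgen]
      congr 1
      ext g
      constructor
      · rintro ⟨u, φ, hu, rfl⟩
        exact ⟨u, _, hu, ⟨φ, (dil_iff (by norm_num) (by norm_num)).2 rfl⟩, rfl⟩
      · rintro ⟨u, φ', hu, ⟨φ, hφ⟩, rfl⟩
        rw [(dil_iff (by norm_num) (by norm_num)).1 hφ]
        exact ⟨u, φ, hu, rfl⟩
    have h1 := Pool.Agent.X277.Ham.comm_eq hn hgen'
    rw [← h1]
    exact ⟨Pool.Agent.X277.Ham.Mn_simple hn, fun N hN hne => Pool.Agent.X277.Ham.Mn_le hN hne⟩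

/-- Let `n ≥ 1` and let `HamGroup n` be the group of compactly supported Hamiltonian homeomorphisms
of the open unit ball of `ℝ^{2n}`.

(1) For `0 < s ≤ 1 / 2` every nontrivial normal subgroup contains the commutators of all elements
`φ^{(s)}`, `ψ^{(s)}`.

(2) If the group is perfect, then for `0 < s ≤ 1 / 2` every nontrivial normal subgroup contains all
elements `φ^{(s)}`.

(3) The group is simple if and only if it is perfect and it is the normal closure of the set of the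
elements `φ^{(1/2)}`.

(4) If the group is generated by the conjugates of the elements `φ^{(1/2)}` by Hamiltonian
diffeomorphisms, then its commutator subgroup is a simple group and is contained in each nontrivial
normal subgroup; in this case the group is simple if and only if it is perfect. -/
theorem result (n : ℕ) (hn : 0 < n) :
    (∀ N : Subgroup (HamGroup n), N.Normal → N ≠ ⊥ → ∀ s : ℝ, 0 < s → s ≤ 1 / 2 →
      ∀ g ∈ dilates n s, ∀ h ∈ dilates n s, ⁅g, h⁆ ∈ N) ∧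
    (commutator (HamGroup n) = ⊤ → ∀ N : Subgroup (HamGroup n), N.Normal → N ≠ ⊥ →
      ∀ s : ℝ, 0 < s → s ≤ 1 / 2 → ∀ g ∈ dilates n s, g ∈ N) ∧
    (IsSimpleGroup (HamGroup n) ↔
      commutator (HamGroup n) = ⊤ ∧ Subgroup.normalClosure (dilates n (1 / 2)) = ⊤) ∧
    (Subgroup.closure (conjDilates n (1 / 2)) = ⊤ →
      IsSimpleGroup (commutator (HamGroup n)) ∧
      (∀ N : Subgroup (HamGroup n), N.Normal → N ≠ ⊥ → commutator (HamGroup n) ≤ N) ∧
      (IsSimpleGroup (HamGroup n) ↔ commutator (HamGroup n) = ⊤)) := by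
  obtain ⟨h1, h2, h3, h4⟩ := main n hn (Subgroup.closure (hamBar n)) (closure_eq n)
  have h3' : IsSimpleGroup (HamGroup n) ↔
      commutator (HamGroup n) = ⊤ ∧ Subgroup.normalClosure (dilates n (1 / 2)) = ⊤ := h3
  refine ⟨fun N hN hne s hs hs1 g hg h hh => ?_, fun hp N hN hne s hs hs1 g hg => ?_, h3',
    fun hgen => ?_⟩
  · obtain ⟨φ, hφ⟩ := hg
    obtain ⟨ψ, hψ⟩ := hh
    exact h1 N hN hne s hs hs1 φ g ψ h hφ hψ
  · obtain ⟨φ, hφ⟩ := hg
    exact h2 hp N hN hne s hs hs1 φ g hφ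
  · have hgen2 : Subgroup.closure {g : HamGroup n | ∃ u φ' : HamGroup n,
        Pool.Agent.Y453.HB.IsHam (u.1 : Homeo n) ∧ (∃ φ, IsDilate (1 / 2) φ φ') ∧
          g = u * φ' * u⁻¹} = ⊤ := by
      rw [← hgen]
      congr 1
      ext g
      constructor
      · rintro ⟨u, φ', hu, hφ', rfl⟩
        exact ⟨u, φ', (timeOne_iff _).2 hu, hφ', rfl⟩
      · rintro ⟨u, φ', hu, hφ', rfl⟩
        exact ⟨u, φ', (timeOne_iff _).1 hu, hφ', rfl⟩
    obtain ⟨h5, h6⟩ := h4 hgen2
    have h5' : IsSimpleGroup (commutator (HamGroup n)) := h5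
    have h6' : ∀ N : Subgroup (HamGroup n), N.Normal → N ≠ ⊥ → commutator (HamGroup n) ≤ N := h6
    refine ⟨h5', h6', fun h => (h3'.1 h).1, fun h => ?_⟩
    have hnt : Nontrivial (HamGroup n) := by
      have := h5'.toNontrivial
      obtain ⟨x, y, hxy⟩ := this.exists_pair_ne
      exact ⟨⟨x, y, fun h => hxy (Subtype.ext h)⟩⟩
    refine ⟨fun N hN => ?_⟩
    rw [or_iff_not_imp_left]
    intro hne
    rw [eq_top_iff, ← h]
    exact h6' N hN hne

end Pool.Agent.Results.MP_68f289_gt.SimplicityCriterion
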